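import Mathlib

set_option autoImplicit false

/-!
# The relations of the numbers `r (N - r)`

An even function `e` on `ℤ / N` with sum zero, all of whose sums `∑ e(c) r(N - r)`,
`r = (s c mod N)`, vanish, is zero. Proof by the Fourier series of the second Bernoulli polynomial.
-/

namespace Pool.Agent.TJN

open Finset Real

/-- the real part of the standard character -/
noncomputable def cs {N : ℕ} [NeZero N] (s : ZMod N) : ℝ := (ZMod.stdAddChar s : ℂ).re

lemma cs_coe {N : ℕ} [NeZero N] (j : ℤ) : cs (j : ZMod N) = Real.cos (2 * π * j / N) := by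
  unfold cs
  rw [ZMod.stdAddChar_coe]
  have h : (2 * (π : ℂ) * Complex.I * (j : ℂ) / (N : ℂ)) =
      ((2 * π * j / N : ℝ) : ℂ) * Complex.I := by
    push_cast
    ring
  rw [h, Complex.exp_ofReal_mul_I_re]

/-- the Fourier series -/
lemma hasSum_b2 {x : ℝ} (hx : x ∈ Set.Icc (0 : ℝ) 1) :
    HasSum (fun n : ℕ => 1 / (n : ℝ) ^ 2 * Real.cos (2 * π * n * x))
      (π ^ 2 * (1 / 6 - x * (1 - x))) := by
  have h := hasSum_one_div_nat_pow_mul_cos one_ne_zero hx
  have e : (-1 : ℝ) ^ (1 + 1) * (2 * π) ^ (2 * 1) / 2 / (Nat.factorial (2 * 1) : ℝ) *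
      (Polynomial.map (algebraMap ℚ ℝ) (Polynomial.bernoulli (2 * 1))).eval x =
      π ^ 2 * (1 / 6 - x * (1 - x)) := by
    have hb : Polynomial.bernoulli (2 * 1) = Polynomial.X ^ 2 - Polynomial.X +
        Polynomial.C (1 / 6 : ℚ) := by
      rw [Polynomial.bernoulli_def]
      simp only [Finset.sum_range_succ, Finset.sum_range_zero]
      have h2 : _root_.bernoulli 2 = 1 / 6 := by
        rw [bernoulli_eq_bernoulli'_of_ne_one (by norm_num), bernoulli'_two]
      norm_num [h2, _root_.bernoulli_one, ← Polynomial.C_mul_X_pow_eq_monomial]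
      ring
    rw [hb]
    simp only [Polynomial.map_add, Polynomial.map_sub, Polynomial.map_pow, Polynomial.map_X,
      Polynomial.map_C, Polynomial.eval_add, Polynomial.eval_sub, Polynomial.eval_pow,
      Polynomial.eval_X, Polynomial.eval_C]
    norm_num
    ring
  rw [e] at h
  simpa using h

/-- **N1** -/
theorem even_zero {N : ℕ} [NeZero N] (e : ZMod N → ℤ) (he : ∀ c, e (-c) = e c)
    (h0 : ∑ c, e c = 0)
    (h : ∀ s : ZMod N, ∑ c, e c * (((s * c).val : ℤ) * ((N : ℤ) - (s * c).val)) = 0) :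
    ∀ c, e c = 0 := by
  have hN : (N : ℝ) ≠ 0 := Nat.cast_ne_zero.mpr (NeZero.ne N)
  have hN0 : (0 : ℝ) < N := Nat.cast_pos.mpr (Nat.pos_of_ne_zero (NeZero.ne N))
  set E : ZMod N → ℝ := fun s => ∑ c, (e c : ℝ) * cs (s * c) with hE
  -- the series
  have hs : ∀ u : ZMod N, HasSum (fun n : ℕ => 1 / (n : ℝ) ^ 2 * E ((n : ZMod N) * u)) 0 := by
    intro u
    have h1 : ∀ c : ZMod N, HasSum (fun n : ℕ => (e c : ℝ) *
        (1 / (n : ℝ) ^ 2 * cs ((n : ZMod N) * u * c)))
        ((e c : ℝ) * (π ^ 2 * (1 / 6 - ((u * c).val / N : ℝ) * (1 - ((u * c).val / N : ℝ))))) := by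
      intro c
      have hx : ((u * c).val / N : ℝ) ∈ Set.Icc (0 : ℝ) 1 := by
        constructor
        · positivity
        · rw [div_le_one hN0]
          exact_mod_cast (ZMod.val_lt (u * c)).le
      have h2 := (hasSum_b2 hx).mul_left (e c : ℝ)
      have e3 : (fun n : ℕ => (e c : ℝ) * (1 / (n : ℝ) ^ 2 * cs ((n : ZMod N) * u * c))) =
          fun n : ℕ => (e c : ℝ) *
            (1 / (n : ℝ) ^ 2 * Real.cos (2 * π * n * ((u * c).val / N : ℝ))) := by
        funext n
        have h3 : ((n : ZMod N) * u * c) = (((n : ℤ) * ((u * c).val : ℤ) : ℤ) : ZMod N) := by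
          push_cast
          rw [ZMod.natCast_zmod_val, mul_assoc]
        rw [h3, cs_coe]
        push_cast
        rw [show 2 * π * ((n : ℝ) * ((u * c).val : ℝ)) / N = 2 * π * n * ((u * c).val / N : ℝ) by
          ring]
      rw [e3]
      exact h2
    have h2 := hasSum_sum (s := Finset.univ) fun c _ => h1 c
    have e1 : ∑ c : ZMod N, (e c : ℝ) *
        (π ^ 2 * (1 / 6 - ((u * c).val / N : ℝ) * (1 - ((u * c).val / N : ℝ)))) = 0 := by
      have e2 : ∀ c : ZMod N, (e c : ℝ) *
          (π ^ 2 * (1 / 6 - ((u * c).val / N : ℝ) * (1 - ((u * c).val / N : ℝ)))) =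
          π ^ 2 / 6 * (e c : ℝ) - π ^ 2 / N ^ 2 *
            ((e c * (((u * c).val : ℤ) * ((N : ℤ) - (u * c).val)) : ℤ) : ℝ) := by
        intro c
        push_cast
        field_simp
      rw [Finset.sum_congr rfl fun c _ => e2 c, Finset.sum_sub_distrib, ← Finset.mul_sum,
        ← Finset.mul_sum, ← Int.cast_sum, ← Int.cast_sum, h0, h u]
      simp
    rw [e1] at h2
    have e4 : (fun n : ℕ => 1 / (n : ℝ) ^ 2 * E ((n : ZMod N) * u)) = fun n : ℕ =>
        ∑ c, (e c : ℝ) * (1 / (n : ℝ) ^ 2 * cs ((n : ZMod N) * u * c)) := by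
      funext n
      rw [hE]
      simp only [Finset.mul_sum]
      exact Finset.sum_congr rfl fun c _ => by ring
    rw [e4]
    exact h2
  -- the maximum
  obtain ⟨u, -, hu⟩ := Finset.exists_max_image Finset.univ (fun s => |E s|)
    ⟨(0 : ZMod N), Finset.mem_univ _⟩
  have hz : |E u| = 0 := by
    have h1 := hs u
    have hz2 := hasSum_zeta_two
    -- split off the terms `0` and `1`
    have h3 : HasSum (fun n : ℕ => 1 / ((n + 2 : ℕ) : ℝ) ^ 2 * E (((n + 2 : ℕ) : ZMod N) * u))
        (0 - E u) := by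
      have := (hasSum_nat_add_iff' 2).mpr h1
      simpa [Finset.sum_range_succ] using this
    have h4 : HasSum (fun n : ℕ => 1 / ((n + 2 : ℕ) : ℝ) ^ 2) (π ^ 2 / 6 - 1) := by
      have := (hasSum_nat_add_iff' 2).mpr hz2
      simpa [Finset.sum_range_succ] using this
    have h5 : |0 - E u| ≤ (π ^ 2 / 6 - 1) * |E u| := by
      have h6 : HasSum (fun n : ℕ => 1 / ((n + 2 : ℕ) : ℝ) ^ 2 * |E u|)
        ((π ^ 2 / 6 - 1) * |E u|) := h4.mul_right _
      rw [← h3.tsum_eq, ← Real.norm_eq_abs]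
      refine tsum_of_norm_bounded h6 fun n => ?_
      rw [norm_mul, Real.norm_of_nonneg (by positivity)]
      exact mul_le_mul_of_nonneg_left (hu _ (Finset.mem_univ _)) (by positivity)
    rw [zero_sub, abs_neg] at h5
    have hpi : π ^ 2 / 6 - 1 < 1 := by
      have h1 := Real.pi_lt_d2
      have h2 := Real.pi_pos
      nlinarith
    have hp := abs_nonneg (E u)
    nlinarith
  have hE0 : ∀ s, E s = 0 := by
    intro s
    have := hu s (Finset.mem_univ _)
    rw [hz] at this
    exact abs_eq_zero.mp (le_antisymm this (abs_nonneg _))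
  -- the Fourier transform is injective
  have hd : ZMod.dft (fun c : ZMod N => ((e c : ℤ) : ℂ)) = 0 := by
    funext s
    have h1 : ZMod.dft (fun c : ZMod N => ((e c : ℤ) : ℂ)) s =
        ∑ c, ZMod.stdAddChar (-(c * s)) * ((e c : ℤ) : ℂ) := by
      rw [ZMod.dft_apply]; rfl
    have h2 : ∑ c, ZMod.stdAddChar (-(c * s)) * ((e c : ℤ) : ℂ) =
        ∑ c, ZMod.stdAddChar (c * s) * ((e c : ℤ) : ℂ) := by
      refine Fintype.sum_equiv (Equiv.neg (ZMod N)) _ _ fun c => ?_
      simp only [Equiv.neg_apply, neg_mul, he]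
    have h3 : ∀ c : ZMod N, ZMod.stdAddChar (-(c * s)) * ((e c : ℤ) : ℂ) +
        ZMod.stdAddChar (c * s) * ((e c : ℤ) : ℂ) = ((2 * ((e c : ℝ) * cs (s * c)) : ℝ) : ℂ) := by
      intro c
      have h4 : (ZMod.stdAddChar (-(c * s)) : ℂ) = starRingEnd ℂ (ZMod.stdAddChar (c * s)) := by
        rw [AddChar.map_neg_eq_conj]
      rw [h4, ← add_mul, add_comm, Complex.add_conj, mul_comm c s]
      unfold cs
      push_cast
      ring
    have h5 : 2 * (∑ c, ZMod.stdAddChar (-(c * s)) * ((e c : ℤ) : ℂ)) = 0 := by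
      rw [two_mul]
      conv_lhs => rw [h2]
      rw [← h2]
      conv_lhs => enter [2]; rw [h2]
      rw [← Finset.sum_add_distrib, Finset.sum_congr rfl fun c _ => h3 c, ← Complex.ofReal_sum,
        ← Finset.mul_sum]
      have : ∑ c, (e c : ℝ) * cs (s * c) = E s := rfl
      rw [this, hE0 s]
      simp
    rw [h1]
    simpa using h5
  intro c
  have h1 := ZMod.dft.injective (hd.trans (map_zero ZMod.dft).symm)
  have h2 : ((e c : ℤ) : ℂ) = 0 := congrFun h1 c
  exact_mod_cast h2

end Pool.Agent.TJN
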