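import Pool.Agent.Lib_helper24.FAM.DefsT

set_option autoImplicit false
set_option linter.unusedSectionVars false

/-!
# Transport of points and of the numbers `γ` by an automorphism of the field
-/

namespace Pool.Agent.TJN

open WeierstrassCurve WeierstrassCurve.Affine Pool.Agent.FK4

variable {k : Type*} [Field k] [DecidableEq k] {W : WeierstrassCurve.Affine k}

lemma fix_map {s : k →+* k} (h1 : s W.a₁ = W.a₁) (h2 : s W.a₂ = W.a₂) (h3 : s W.a₃ = W.a₃)
    (h4 : s W.a₄ = W.a₄) (h6 : s W.a₆ = W.a₆) : W.map s = W := by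
  ext <;> assumption

lemma nonsingular_fix {s : k →+* k} (hW : W.map s = W) {x y : k} (h : W.Nonsingular x y) :
    W.Nonsingular (s x) (s y) := by
  have h1 := (W.map_nonsingular s.injective x y).mpr h
  rw [hW] at h1
  exact h1

/-- the action of an automorphism of the field on the points -/
def mpt (s : k →+* k) (hW : W.map s = W) : W.Point → W.Point
  | 0 => 0
  | .some x y h => .some (s x) (s y) (nonsingular_fix hW h)

@[simp] lemma mpt_zero (s : k →+* k) (hW : W.map s = W) : mpt s hW 0 = 0 := rfl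

lemma mpt_some (s : k →+* k) (hW : W.map s = W) {x y : k} (h : W.Nonsingular x y) :
    mpt s hW (.some x y h) = .some (s x) (s y) (nonsingular_fix hW h) := rfl

lemma mpt_add (s : k →+* k) (hW : W.map s = W) (P Q : W.Point) :
    mpt s hW (P + Q) = mpt s hW P + mpt s hW Q := by
  have hn : ∀ x y : k, W.negY (s x) (s y) = s (W.negY x y) := by
    intro x y
    have := map_negY (W' := W) s x y
    rw [hW] at this
    exact this
  have hX : ∀ x₁ x₂ l : k, W.addX (s x₁) (s x₂) (s l) = s (W.addX x₁ x₂ l) := by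
    intro x₁ x₂ l
    have := map_addX (W' := W) s x₁ x₂ l
    rw [hW] at this
    exact this
  have hY : ∀ x₁ x₂ y₁ l : k, W.addY (s x₁) (s x₂) (s y₁) (s l) = s (W.addY x₁ x₂ y₁ l) := by
    intro x₁ x₂ y₁ l
    have := map_addY (W' := W) s x₁ y₁ x₂ l
    rw [hW] at this
    exact this
  have hl : ∀ x₁ x₂ y₁ y₂ : k, W.slope (s x₁) (s x₂) (s y₁) (s y₂) = s (W.slope x₁ x₂ y₁ y₂) := by
    intro x₁ x₂ y₁ y₂
    have := map_slope (W := W) s x₁ x₂ y₁ y₂
    rw [hW] at this
    exact this
  rcases P with _ | ⟨x₁, y₁, h₁⟩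
  · show mpt s hW (0 + Q) = mpt s hW 0 + mpt s hW Q
    rw [mpt_zero, zero_add, zero_add]
  rcases Q with _ | ⟨x₂, y₂, h₂⟩
  · show mpt s hW (_ + 0) = _ + mpt s hW 0
    rw [mpt_zero, add_zero, add_zero]
  by_cases hxy : x₁ = x₂ ∧ y₁ = W.negY x₂ y₂
  · rw [Point.add_of_Y_eq hxy.1 hxy.2, mpt_zero, mpt_some, mpt_some,
      Point.add_of_Y_eq (congrArg s hxy.1) (by rw [hxy.2, hn])]
  · have hxy' : ¬(s x₁ = s x₂ ∧ s y₁ = W.negY (s x₂) (s y₂)) := by
      rintro ⟨e1, e2⟩
      rw [hn] at e2
      exact hxy ⟨s.injective e1, s.injective e2⟩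
    rw [mpt_some, mpt_some, Point.add_some hxy, Point.add_some hxy', mpt_some]
    simp only [Point.some.injEq]
    exact ⟨by rw [hl, hX], by rw [hl, hY]⟩

/-- the action as a homomorphism -/
def mph (s : k →+* k) (hW : W.map s = W) : W.Point →+ W.Point where
  toFun := mpt s hW
  map_zero' := rfl
  map_add' := mpt_add s hW

lemma mph_some (s : k →+* k) (hW : W.map s = W) {x y : k} (h : W.Nonsingular x y) :
    mph s hW (.some x y h) = .some (s x) (s y) (nonsingular_fix hW h) := rfl

lemma mph_injective (s : k →+* k) (hW : W.map s = W) : Function.Injective (mph s hW) := by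
  rw [injective_iff_map_eq_zero]
  rintro (_ | ⟨x, y, h⟩) h0
  · rfl
  · rw [mph_some] at h0
    exact absurd h0 (Point.some_ne_zero _)

lemma absc_mph (s : k →+* k) (hW : W.map s = W) (P : W.Point) :
    absc (mph s hW P) = s (absc P) := by
  rcases P with _ | ⟨x, y, h⟩
  · exact (map_zero s).symm
  · rfl

/-- **transport of `γ`** -/
theorem gam_mph (s : k →+* k) (hW : W.map s = W) (H : AddSubgroup W.Point) [Fintype H]
    [Fintype (H.map (mph s hW))] (P : W.Point) :
    gam (H.map (mph s hW)) (mph s hW P) = s (gam H P) := by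
  have ha : s W.a₁ = W.a₁ ∧ s W.a₂ = W.a₂ ∧ s W.a₃ = W.a₃ ∧ s W.a₄ = W.a₄ := by
    refine ⟨?_, ?_, ?_, ?_⟩
    · exact congrArg WeierstrassCurve.a₁ hW
    · exact congrArg WeierstrassCurve.a₂ hW
    · exact congrArg WeierstrassCurve.a₃ hW
    · exact congrArg WeierstrassCurve.a₄ hW
  obtain ⟨h1, h2, h3, h4⟩ := ha
  rcases P with _ | ⟨x, y, h⟩
  · exact (map_one s).symm
  · rw [mph_some]
    have e1 : 2 * s y + W.a₁ * s x + W.a₃ = s (2 * y + W.a₁ * x + W.a₃) := by
      rw [map_add, map_add, map_mul, map_mul, map_ofNat, h1, h3]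
    have e2 : 3 * s x ^ 2 + 2 * W.a₂ * s x + W.a₄ - W.a₁ * s y =
        s (3 * x ^ 2 + 2 * W.a₂ * x + W.a₄ - W.a₁ * y) := by
      simp only [map_add, map_sub, map_mul, map_pow, map_ofNat, h1, h2, h4]
    have e3 : (if 2 * s y + W.a₁ * s x + W.a₃ = 0 then
        3 * s x ^ 2 + 2 * W.a₂ * s x + W.a₄ - W.a₁ * s y
        else (2 * s y + W.a₁ * s x + W.a₃) ^ 2) =
        s (if 2 * y + W.a₁ * x + W.a₃ = 0 then
          3 * x ^ 2 + 2 * W.a₂ * x + W.a₄ - W.a₁ * y else (2 * y + W.a₁ * x + W.a₃) ^ 2) := by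
      rw [e1, e2]
      by_cases hz : 2 * y + W.a₁ * x + W.a₃ = 0
      · rw [if_pos (by rw [hz, map_zero]), if_pos hz]
      · rw [if_neg ((map_ne_zero s).mpr hz), if_neg hz, map_pow]
    show (if 2 * s y + W.a₁ * s x + W.a₃ = 0 then
        3 * s x ^ 2 + 2 * W.a₂ * s x + W.a₄ - W.a₁ * s y
        else (2 * s y + W.a₁ * s x + W.a₃) ^ 2) *
      (∏ c : H.map (mph s hW), if (c : W.Point) = 0 ∨
        (c : W.Point) = .some (s x) (s y) (nonsingular_fix hW h) ∨
        (c : W.Point) = -.some (s x) (s y) (nonsingular_fix hW h) then 1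
          else s x - absc (c : W.Point)) =
      s ((if 2 * y + W.a₁ * x + W.a₃ = 0 then
        3 * x ^ 2 + 2 * W.a₂ * x + W.a₄ - W.a₁ * y else (2 * y + W.a₁ * x + W.a₃) ^ 2) *
      ∏ c : H, if (c : W.Point) = 0 ∨ (c : W.Point) = .some x y h ∨
        (c : W.Point) = -.some x y h then 1 else x - absc (c : W.Point))
    rw [map_mul, ← e3, map_prod]
    congr 1
    symm
    refine Fintype.prod_equiv
      (H.equivMapOfInjective (mph s hW) (mph_injective s hW)).toEquiv
      (fun c : H => s (if (c : W.Point) = 0 ∨ (c : W.Point) = .some x y h ∨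
        (c : W.Point) = -.some x y h then 1 else x - absc (c : W.Point)))
      (fun c : H.map (mph s hW) => if (c : W.Point) = 0 ∨
        (c : W.Point) = .some (s x) (s y) (nonsingular_fix hW h) ∨
        (c : W.Point) = -.some (s x) (s y) (nonsingular_fix hW h) then 1
          else s x - absc (c : W.Point)) fun c => ?_
    have hc : (((H.equivMapOfInjective (mph s hW) (mph_injective s hW)).toEquiv c :
        H.map (mph s hW)) : W.Point) = mph s hW c := rfl
    rw [hc, absc_mph]
    have i0 : mph s hW c = 0 ↔ (c : W.Point) = 0 := by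
      rw [← map_zero (mph s hW)]
      exact (mph_injective s hW).eq_iff
    have i1 : mph s hW c = .some (s x) (s y) (nonsingular_fix hW h) ↔
        (c : W.Point) = .some x y h := by
      rw [← mph_some]
      exact (mph_injective s hW).eq_iff
    have i2 : mph s hW c = -.some (s x) (s y) (nonsingular_fix hW h) ↔
        (c : W.Point) = -.some x y h := by
      rw [← mph_some, ← map_neg]
      exact (mph_injective s hW).eq_iff
    by_cases hc0 : (c : W.Point) = 0 ∨ (c : W.Point) = .some x y h ∨ (c : W.Point) = -.some x y h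
    · rw [if_pos hc0, if_pos (by rwa [i0, i1, i2]), map_one]
    · rw [if_neg hc0, if_neg (by rwa [i0, i1, i2]), map_sub]

/-- **transport of a relation** -/
theorem rel_mph (s : k →+* k) (hW : W.map s = W) (H : AddSubgroup W.Point) [Fintype H]
    (H' : AddSubgroup W.Point) [Fintype H'] (hH : H' = H.map (mph s hW)) {e : H → ℤ}
    (h : ∏ a : H, gam H (a : W.Point) ^ e a = 1) :
    ∏ a : H, gam H' (mph s hW (a : W.Point)) ^ e a = 1 := by
  subst hH
  simp only [gam_mph]
  rw [← map_one s, ← h, map_prod]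
  exact Finset.prod_congr rfl fun a _ => (map_zpow₀ s _ _).symm

/-- the image of the multiples of a point -/
lemma map_zmultiples (s : k →+* k) (hW : W.map s = W) (P : W.Point) :
    (AddSubgroup.zmultiples P).map (mph s hW) = AddSubgroup.zmultiples (mph s hW P) :=
  AddMonoidHom.map_zmultiples _ _

/-- **transport of `SiegelIndep`** -/
theorem siegelIndep_of_map (s : k →+* k) (hW : W.map s = W) (H : AddSubgroup W.Point) [Fintype H]
    [Fintype (H.map (mph s hW))] (h : SiegelIndep (H.map (mph s hW))) : SiegelIndep H := by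
  intro e h1 h2 h3 h4 a
  set E := (H.equivMapOfInjective (mph s hW) (mph_injective s hW)).toEquiv with hE
  have hEc : ∀ c : H, ((E c : H.map (mph s hW)) : W.Point) = mph s hW c := fun c => rfl
  have hneg : ∀ c : H, E (-c) = -E c := fun c => map_neg
    (H.equivMapOfInjective (mph s hW) (mph_injective s hW)) c
  have h0 : E 0 = 0 := map_zero (H.equivMapOfInjective (mph s hW) (mph_injective s hW))
  have := h (fun c => e (E.symm c)) (fun c => ?_) ?_ ?_ ?_ (E a)
  · simpa using this
  · obtain ⟨d, rfl⟩ := E.surjective c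
    rw [← hneg, Equiv.symm_apply_apply, Equiv.symm_apply_apply, h1]
  · show e (E.symm 0) = 0
    rw [← h0, Equiv.symm_apply_apply, h2]
  · rw [← h3]
    exact (E.symm.sum_comp e)
  · rw [← E.prod_comp]
    simp only [Equiv.symm_apply_apply, hEc]
    exact rel_mph s hW H _ rfl h4

end Pool.Agent.TJN
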